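import Pool.Agent.V7H77.RG.Disc
import Pool.Agent.V7H77.RG.Stab
import Pool.Agent.V7H82.ZT.Stab
import Pool.Agent.TH188.QS.Bases3

/-!
MP_5b7a2c_ag: almost all extensions of a universally log uniformizable valuation to a finitely generated field extension
are universally log uniformizable; almost all of them are valuation-algebraic, and almost all are stable if the given
valuation is stable; in arbitrary dimension and (mixed) characteristic.

Let `R` be a ring each of whose quotient domains is a field, or is of finite type over a regular domain `R₁` such that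
`R₁` is `F`-finite, or `R₁` is formally smooth over a perfect field, or `R₁` is contained in the quotient and the
quotient has characteristic zero. Let `E` be a finitely generated field over `R` and `V₀` a valuation ring of `E`. It is
called universally log uniformizable if, for all finite extensions `E'` of `E`, all valuation rings `V'` of `E'` over `V₀`
are log uniformizable on all models of `E'` (essentially of finite type over `R`). This is so if the models of `E` have
dimension at most three (Cossart, Piltant), or (`uu_disc`, used here) if `V₀` is discrete of some finite rank.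

Let `V₀` be discrete of some finite rank or universally log uniformizable, and let `K` be any finitely generated field
extension of `E`. No assumption is made on the dimension, the characteristic and the valuations of `K`. The valuation rings
of `K` over `V₀` form a nonempty compact Hausdorff space for the patch topology, in which the sets of the `V` which contain a
given element of `K` are open and closed; so it is a Baire space.

1. The universally log uniformizable `V` are dense.
2. For each finite extension `K'` of `K`, each model `Spec B'` of `K'`, each closed subset `V(D)` and each blowing-up in `I₀`, the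
   `V` which have an extension `V'` to `K'` with centre on `Spec B'` such that no blowing-up which factors through the
   blowing-up in `I₀` is a log desingularization along `V'`, form a nowhere dense set.
3. If `R` is countable, then almost all `V` in the sense of Baire category are universally log uniformizable.
4. If `R` is countable and `V₀ ≠ E` then almost all `V` are valuation-algebraic over `V₀`: the value group of `V` is torsion
over that of `V₀`, and the residue field is algebraic. So the theorem does not concern Abhyankar valuations.
5. If moreover `E` is dense in its algebraic extensions (for all extensions of `V₀`) then this is inherited by `K` for almost all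
`V`, and then all valuation rings over `V` of all simple extensions `K(t)` are log uniformizable on all models.

The proof. (a) Valued Nullstellensatz (`V7H77/RG/One`, `Fin`, `Curve`, `Step`, `Dens`): near each valuation ring `V` of `K` over
`V₀` there are valuation rings which are composed of discrete valuation rings of rank one and of a valuation ring over `V₀` of a
finite extension of `E`. This is proved by induction on the transcendence degree: over an algebraically closed valued field
`k` a transcendental element `t` can be replaced by an element `a` of `k` in finitely many inequalities of values of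
polynomials (`one_var`), and in a finite extension of `k(t)` the inequalities for finitely many elements follow from those for
the coefficients of their integral equations, by a separating element of the integral closure (`exists_sep`, `curve`).
(b) These composites are universally log uniformizable: by the composition theorem of the start library
(`R187/CT/Base`), since finite extensions of composites are composites (`uu_comp`, by the theorem of Krull and Akizuki).
(c) A log desingularization along `W` is one along all `V` near `W` (helper82's `V7H82/ZR/Near`), and the fibre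
over `W` of the restriction map of the extensions of `V₀` to `K'` is compact.
(d) If `V₀ ≠ E` then the composites in (a) can be chosen such that finitely many given elements are units of the smallest
valuation ring `ν` which contains `W` and `E`, and the residue field of `ν` is algebraic over `E` (`V7H77/RG/Dens2`). So the values
and residues are algebraic (`Alg`), and for the roots `z` of a given polynomial over `K` the residues modulo `ν` are algebraic
over `E`. Hence `z` can be approximated by elements of `E` if `E` is dense in its algebraic extensions (`Stab`). The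
last assertion of 5 is helper82's theorem on simple extensions (`V7H82/ZT`).

helper77; built on the library of the starting files and on helper82's library.
-/

set_option autoImplicit false

universe u

namespace Pool.Agent.Results.MP_5b7a2c_ag.GenericExtensionsH77

open IsLocalRing Pool.Agent.W418.LU2 Pool.Agent.TH188.QS

/-- The local ring of `Spec B` at the centre of the valuation ring `V`: the fractions of elements
of `B` whose denominators are units of `V`. -/
def centreRing {F : Type u} [Field F] (V : ValuationSubring F) (B : Subring F) : Subring F where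
  carrier := {x | ∃ a ∈ B, ∃ b ∈ B, b ≠ 0 ∧ b⁻¹ ∈ V ∧ x = a * b⁻¹}
  mul_mem' := (lo V.toSubring B).mul_mem'
  one_mem' := (lo V.toSubring B).one_mem'
  add_mem' := (lo V.toSubring B).add_mem'
  zero_mem' := (lo V.toSubring B).zero_mem'
  neg_mem' := (lo V.toSubring B).neg_mem'

/-- The chart `A[I / f]` of the blowing-up of `Spec A` in the ideal `I`. -/
def blowUpChart {F : Type u} [Field F] (A : Subring F) (I : Ideal A) (f : A) : Subring F :=
  Subring.closure ((A : Set F) ∪ {z | ∃ a ∈ I, z = (a : F) / (f : F)})

/-- `P` is a regular local ring and the zero set of `J` is a divisor with strict normal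
crossings: the radical of `J` is generated by the product of some of the elements of a regular
system of parameters. -/
def RegularPair (P : Type u) [CommRing P] (J : Ideal P) : Prop :=
  ∃ (_ : IsRegularLocalRing P) (n : ℕ) (x : Fin n → P) (s : Finset (Fin n)),
    Ideal.span (Set.range x) = IsLocalRing.maximalIdeal P ∧ ringKrullDim P = n ∧
      J.radical = Ideal.span {∏ i ∈ s, x i}

/-- The blowing-up of `X = Spec A` in `V(I)` is a log desingularization of `(X, V(D))` along the
valuation ring `V`. Here `f ∈ I` generates `I V`, the centre of the lift of the valuation lies in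
the chart `Spec A[I / f]`, and the ideal `D I` defines the preimage of `V(D) ∪ V(I)`. -/
def IsLogDesingularization {F : Type u} [Field F] (V : ValuationSubring F) (A : Subring F)
    (D I : Ideal A) : Prop :=
  ∃ f ∈ I, f ≠ 0 ∧ (∀ a ∈ I, (a : F) / (f : F) ∈ V) ∧
    RegularPair (centreRing V (blowUpChart A I f))
      (Ideal.span {z | ∃ a ∈ D * I, (z : F) = (a : F)})

/-- The valuation ring `V` is log uniformizable on `Spec A`. (The blowings-up in the ideals
`I₀ * I₁` are cofinal: the blowing-up in `I₀ * I₁` factors through the blowing-up in `I₀`.) -/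
def IsLogUniformizable {F : Type u} [Field F] (V : ValuationSubring F) (A : Subring F) : Prop :=
  ∀ D I₀ : Ideal A, D ≠ ⊥ → I₀ ≠ ⊥ →
    ∃ I₁ : Ideal A, I₁ ≠ ⊥ ∧ IsLogDesingularization V A D (I₀ * I₁)

/-- A ring of prime characteristic `p` which is a finite module over its ring of `p`-th powers. -/
def IsFFinite (R : Type u) [CommRing R] : Prop :=
  ∃ (p : ℕ) (_ : Fact p.Prime) (_ : CharP R p), (frobenius R p).Finite

/-- A ring which is formally smooth over a perfect field. -/
def IsFormallySmoothOverPerfectField (R : Type u) [CommRing R] : Prop :=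
  ∃ (k : Type u) (_ : Field k) (_ : PerfectField k) (_ : Algebra k R), Algebra.FormallySmooth k R

/-- The rings `R` over which the domains of finite type are considered: each quotient domain
`R / 𝔭` is a field, or it is of finite type over a regular domain `R₁` such that `R₁` is `F`-finite,
or `R₁` is formally smooth over a perfect field, or `R₁` is a subring of `R / 𝔭` and `R / 𝔭` has
characteristic zero. -/
def IsBaseRing (R : Type u) [CommRing R] : Prop :=
  ∀ 𝔭 : Ideal R, 𝔭.IsPrime → IsField (R ⧸ 𝔭) ∨
    ∃ (R₁ : Type u) (_ : CommRing R₁) (_ : IsDomain R₁) (_ : IsRegularRing R₁)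
      (σ : R₁ →+* R ⧸ 𝔭), σ.FiniteType ∧
        (IsFFinite R₁ ∨ IsFormallySmoothOverPerfectField R₁ ∨
          (Function.Injective σ ∧ CharZero (R ⧸ 𝔭)))

/-- The image of the `R`-algebra generated by `T`. -/
def adjoined {R K : Type u} [CommRing R] [Field K] (ρ : R →+* K) (T : Set K) : Subring K :=
  Subring.closure ((ρ.range : Set K) ∪ T)

/-- `B` is a localization of a finitely generated `R`-algebra. -/
def IsEssentiallyOfFiniteType {R K : Type u} [CommRing R] [Field K] (ρ : R →+* K)
    (B : Subring K) : Prop :=
  ∃ T : Set K, T.Finite ∧ adjoined ρ T ≤ B ∧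
    ∀ b ∈ B, ∃ a ∈ adjoined ρ T, ∃ s ∈ adjoined ρ T, s ≠ 0 ∧ s⁻¹ ∈ B ∧ b = a * s⁻¹

/-- The blowing-up problem `(D, I₀)` is solvable along the valuation ring `V`: some blowing-up of `X = Spec A` which factors
through the blowing-up in `I₀` is a log desingularization of `(X, V(D))` along `V`. -/
def IsSolvable {F : Type u} [Field F] (V : ValuationSubring F) (A : Subring F) (D I₀ : Ideal A) :
    Prop :=
  ∃ I₁ : Ideal A, I₁ ≠ ⊥ ∧ IsLogDesingularization V A D (I₀ * I₁)

/-- The field `K` is generated by the image of `R` and finitely many elements. -/
def IsFinitelyGenerated {R K : Type u} [CommRing R] [Field K] (ρ : R →+* K) : Prop :=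
  ∃ S : Set K, S.Finite ∧ ∀ z : K, ∃ a ∈ adjoined ρ S, ∃ b ∈ adjoined ρ S, b ≠ 0 ∧ z = a * b⁻¹

/-- `Spec B` is a model of `K` over `R`: it is essentially of finite type over `R`, with the field of fractions `K`. -/
def IsModel {R K : Type u} [CommRing R] [Field K] (ρ : R →+* K) (B : Subring K) : Prop :=
  IsEssentiallyOfFiniteType ρ B ∧ ∀ z : K, ∃ a ∈ B, ∃ b ∈ B, b ≠ 0 ∧ z = a * b⁻¹

/-- The valuation ring `V` of the field `K` is universally log uniformizable over `R`: for all finite extensions `K'` of
`K`, all valuation rings `V'` of `K'` with `V' ∩ K = V` are log uniformizable on all models `Spec B'` of `K'` over `R` with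
`B' ⊆ V'`. -/
def IsUniversal {R K : Type u} [CommRing R] [Field K] (ρ : R →+* K) (V : ValuationSubring K) :
    Prop :=
  ∀ (K' : Type u) [Field K'] [Algebra K K'] [FiniteDimensional K K'] (V' : ValuationSubring K'),
    V'.comap (algebraMap K K') = V → ∀ B' : Subring K', IsModel ((algebraMap K K').comp ρ) B' →
      B' ≤ V'.toSubring → IsLogUniformizable V' B'

/-- The valuation ring `V` is composed of `n` discrete valuation rings of rank one. -/
def IsDiscreteOfRank : ℕ → ∀ {K : Type u} [Field K], ValuationSubring K → Prop
  | 0, _, _, V => V = ⊤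
  | n + 1, _, _, V => ∃ (V₁ : ValuationSubring _) (W : ValuationSubring (ResidueField V₁)),
      IsDiscreteValuationRing V₁ ∧ IsDiscreteOfRank n W ∧
        ∀ z, z ∈ V ↔ ∃ hz : z ∈ V₁, residue V₁ ⟨z, hz⟩ ∈ W

/-- `K` is dense in each algebraic extension `L` of it, for each valuation ring `W` of `L` over `V`. -/
def IsDenseInAlgebraicExtensions {K : Type u} [Field K] (V : ValuationSubring K) : Prop :=
  ∀ (L : Type u) [Field L] [Algebra K L] [Algebra.IsAlgebraic K L] (W : ValuationSubring L),
    W.comap (algebraMap K L) = V → ∀ θ c : L, c ≠ 0 →
      ∃ y : K, W.valuation (θ - algebraMap K L y) < W.valuation c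

/-- The valuation ring `V` of `K` is valuation-algebraic over `V ∩ E`: some power `n ≥ 1` of each nonzero element of `K`
has the value of an element of `E`, and the residue of each `z ∈ V` is algebraic over the residue field of `V ∩ E`, as a root
of the reduction of a polynomial `Q` with coefficients in `V ∩ E`, one of which is `1`. -/
def IsValuationAlgebraic (E : Type u) [Field E] {K : Type u} [Field K] [Algebra E K]
    (V : ValuationSubring K) : Prop :=
  (∀ z : K, z ≠ 0 → ∃ (n : ℕ) (c : E), n ≠ 0 ∧ c ≠ 0 ∧
    V.valuation (z ^ n) = V.valuation (algebraMap E K c)) ∧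
  ∀ z ∈ V, ∃ Q : Polynomial E, (∀ i, algebraMap E K (Q.coeff i) ∈ V) ∧ (∃ i, Q.coeff i = 1) ∧
    V.valuation (Polynomial.aeval z Q) < 1

/-- All valuation rings `V'` over `V` of all simple extensions `K(t)` of `K`, with `t` algebraic or transcendental, are log
uniformizable on all models `Spec B'` of `K(t)` over `R` with `B' ⊆ V'`. -/
def IsUniformizableInSimpleExtensions {R K : Type u} [CommRing R] [Field K] (ρ : R →+* K)
    (V : ValuationSubring K) : Prop :=
  ∀ (K' : Type u) [Field K'] [Algebra K K'] (t : K'), IntermediateField.adjoin K {t} = ⊤ →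
    ∀ V' : ValuationSubring K', V'.comap (algebraMap K K') = V → ∀ B' : Subring K',
      IsModel ((algebraMap K K').comp ρ) B' → B' ≤ V'.toSubring → IsLogUniformizable V' B'

/-- The valuation rings `V` of `K` with `V ∩ E = V₀`. -/
def Extensions {E : Type u} [Field E] (V₀ : ValuationSubring E) (K : Type u) [Field K]
    [Algebra E K] : Type u :=
  {V : ValuationSubring K // V.comap (algebraMap E K) = V₀}

/-- The patch topology (constructible topology): the sets of the valuation rings which contain `x`, and their
complements, are open. -/
instance patchTopology {E : Type u} [Field E] (V₀ : ValuationSubring E) (K : Type u) [Field K]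
    [Algebra E K] : TopologicalSpace (Extensions V₀ K) :=
  TopologicalSpace.generateFrom {U | ∃ x : K, U = {V | x ∈ V.1} ∨ U = {V | x ∉ V.1}}

lemma disc_iff (n : ℕ) : ∀ {K : Type u} [Field K] (V : ValuationSubring K),
    IsDiscreteOfRank n V → DR n V := by
  induction n with
  | zero => exact fun V h => h
  | succ n ih =>
    rintro K _ V ⟨V₁, W, h1, h2, h3⟩
    exact ⟨V₁, W, h1, ih W h2, h3⟩

lemma uu_iff {R : Type u} [CommRing R] (hR : HJ R) {K : Type u} [Field K] {ρ : R →+* K}
    (hK : IsFinitelyGenerated ρ) (V : ValuationSubring K) :
    IsUniversal ρ V ↔ Pool.Agent.V7H77.RG.UU ρ V := by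
  constructor
  · intro h K' _ _ _ V' hV'
    have h1 : (⊤ : IntermediateField K K').FG := IntermediateField.fg_of_noetherian _
    refine Pool.Agent.R187.CT.good_given hR _ V' (Pool.Agent.V7H77.RG.fg_tower hK h1)
      fun T hT hTV hTK => ?_
    exact h K' V' hV' _ ⟨⟨T, hT, le_rfl, fun b hb => ⟨b, hb, 1, Subring.one_mem _, one_ne_zero, by
      rw [inv_one]; exact Subring.one_mem _, by rw [inv_one, mul_one]⟩⟩, hTK⟩ hTV
  · rintro h K' _ _ _ V' hV' B' ⟨⟨T, hT, hTB, hBT⟩, hBK⟩ hBV
    exact (h K' V' hV').logUnif hR hT hBV hTB hBT hBK

lemma valg_of {E : Type u} [Field E] {K : Type u} [Field K] [Algebra E K]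
    {V : ValuationSubring K} (h : Pool.Agent.V7H77.RG.VA E V) : IsValuationAlgebraic E V := by
  refine ⟨fun z hz => ?_, fun z hz => h.2 z hz⟩
  obtain ⟨n, hn, c, hc, h1, h2⟩ := h.1 z hz
  refine ⟨n, c, hn, hc, ?_⟩
  have hc' : V.valuation (algebraMap E K c) ≠ 0 :=
    (_root_.map_ne_zero _).2 ((_root_.map_ne_zero _).2 hc)
  have hz' : V.valuation (z ^ n) ≠ 0 := (_root_.map_ne_zero _).2 (pow_ne_zero _ hz)
  rw [← V.valuation_le_one_iff, map_div₀, div_le_one₀ (zero_lt_iff.2 hc')] at h1
  rw [← V.valuation_le_one_iff, inv_div, map_div₀, div_le_one₀ (zero_lt_iff.2 hz')] at h2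
  exact le_antisymm h1 h2

lemma simple_of {R : Type u} [CommRing R] (hR : HJ R) {K : Type u} [Field K] {ρ : R →+* K}
    (hK : IsFinitelyGenerated ρ) {V : ValuationSubring K} (h : Pool.Agent.V7H77.RG.UU ρ V)
    (hd : Pool.Agent.V7H77.RG.DAE V) : IsUniformizableInSimpleExtensions ρ V := by
  rintro K' _ _ t ht V' hV' B' ⟨⟨T, hT, hTB, hBT⟩, hBK⟩ hBV
  have hρ : ∀ a, ρ a ∈ V := by
    intro a
    have h1 : algebraMap K K' (ρ a) ∈ B' := hTB (Subring.subset_closure (Or.inl ⟨a, rfl⟩))
    have h2 : ρ a ∈ V'.comap (algebraMap K K') := hBV h1
    rwa [hV'] at h2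
  have hA : Pool.Agent.V7H82.ZS.Apx V := by
    obtain ⟨W, hW⟩ := Pool.Agent.V7H82.ZT.exists_over V (AlgebraicClosure K)
    exact Pool.Agent.V7H82.ZT.apx_of_dense hW fun θ c hc _ _ => hd (AlgebraicClosure K) W hW θ c hc
  have hg := Pool.Agent.V7H82.ZT.good_simple hR hK hρ hA (fun L _ _ _ V'' hV'' => by
    refine Pool.Agent.V7H82.ZT.good_of_fin hR hK (V := V) ?_ V'' hV''
    intro F _ _ _ V₃ hV₃ S hS hSV hSF
    exact (h F V₃ hV₃).logUnif hR hS hSV le_rfl (fun b hb => ⟨b, hb, 1, Subring.one_mem _,
      one_ne_zero, by rw [inv_one]; exact Subring.one_mem _, by rw [inv_one, mul_one]⟩) hSF)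
    ht V' hV'
  exact hg.logUnif hR hT hBV hTB hBT hBK

/-- Let `R` be a base ring (each quotient domain is a field, or is of finite type over a regular domain `R₁` such that `R₁`
is `F`-finite, or `R₁` is formally smooth over a perfect field, or `R₁` is a subring of the quotient, which has
characteristic zero). Let `E` be a field which is finitely generated over `R`, and `V₀` a valuation ring of `E` which is
discrete of finite rank or universally log uniformizable. Let `K` be a finitely generated field extension of `E`. The space
of the valuation rings of `K` over `V₀` is nonempty, compact and Hausdorff for the patch topology, and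

(1) the universally log uniformizable valuation rings are dense in it;

(2) for each finite extension `K'` of `K`, each model `Spec B'` of `K'` and all nonzero ideals `D` and `I₀` of `B'`, the
`V` which have an extension `V' ⊇ B'` to `K'` along which the problem `(D, I₀)` is not solvable are a nowhere dense set;

(3) if `R` is countable, the `V` which are not universally log uniformizable are a meagre set;

(4) if `R` is countable and `V₀ ≠ E`, the `V` which are not valuation-algebraic over `V₀` are a meagre set;

(5) if moreover `E` is dense in its algebraic extensions (for the extensions of `V₀`), then for all `V` outside a meagre set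
`K` is dense in its algebraic extensions, and all valuation rings over `V` of all simple extensions `K(t)` are log
uniformizable on all models of `K(t)`. -/
theorem result {R : Type u} [CommRing R] (hR : IsBaseRing R) {E : Type u} [Field E] (ρ : R →+* E)
    (hE : IsFinitelyGenerated ρ) (V₀ : ValuationSubring E)
    (hV₀ : (∃ n, IsDiscreteOfRank n V₀) ∨ IsUniversal ρ V₀) {K : Type u} [Field K] [Algebra E K]
    (hK : (⊤ : IntermediateField E K).FG) :
    Nonempty (Extensions V₀ K) ∧ CompactSpace (Extensions V₀ K) ∧ T2Space (Extensions V₀ K) ∧
    Dense {V : Extensions V₀ K | IsUniversal ((algebraMap E K).comp ρ) V.1} ∧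
    (∀ (K' : Type u) [Field K'] [Algebra K K'] [FiniteDimensional K K'] (B' : Subring K'),
      IsModel ((algebraMap K K').comp ((algebraMap E K).comp ρ)) B' →
      ∀ D I₀ : Ideal B', D ≠ ⊥ → I₀ ≠ ⊥ →
        IsNowhereDense {V : Extensions V₀ K | ∃ V' : ValuationSubring K',
          V'.comap (algebraMap K K') = V.1 ∧ B' ≤ V'.toSubring ∧ ¬ IsSolvable V' B' D I₀}) ∧
    (Countable R →
      IsMeagre {V : Extensions V₀ K | ¬ IsUniversal ((algebraMap E K).comp ρ) V.1}) ∧
    (Countable R → V₀ ≠ ⊤ → IsMeagre {V : Extensions V₀ K | ¬ IsValuationAlgebraic E V.1}) ∧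
    (Countable R → V₀ ≠ ⊤ → IsDenseInAlgebraicExtensions V₀ →
      IsMeagre {V : Extensions V₀ K | ¬ (IsDenseInAlgebraicExtensions V.1 ∧
        IsUniformizableInSimpleExtensions ((algebraMap E K).comp ρ) V.1)}) := by
  have hHJ : HJ R := BR.hj hR
  have hU : Pool.Agent.V7H77.RG.UU ρ V₀ := by
    rcases hV₀ with ⟨n, hn⟩ | h
    · exact Pool.Agent.V7H77.RG.uu_disc hHJ n ρ V₀ (disc_iff n V₀ hn)
    · exact (uu_iff hHJ hE V₀).1 h
  have hKR := Pool.Agent.V7H77.RG.fg_tower hE hK
  have hfd := Pool.Agent.V7H77.RG.fd_of_fg hK
  have hset : {V : Extensions V₀ K | IsUniversal ((algebraMap E K).comp ρ) V.1} =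
      {V | Pool.Agent.V7H77.RG.UU ((algebraMap E K).comp ρ) V.1} :=
    Set.ext fun V => uu_iff hHJ hKR V.1
  have hset' : {V : Extensions V₀ K | ¬ IsUniversal ((algebraMap E K).comp ρ) V.1} =
      {V | ¬ Pool.Agent.V7H77.RG.UU ((algebraMap E K).comp ρ) V.1} :=
    Set.ext fun V => not_congr (uu_iff hHJ hKR V.1)
  refine ⟨Pool.Agent.V7H77.RG.ex_nonempty, Pool.Agent.V7H77.RG.ex_compact,
    Pool.Agent.V7H77.RG.ex_t2, ?_, ?_, ?_, ?_, ?_⟩
  · rw [hset]
    exact Pool.Agent.V7H77.RG.dense_uu hHJ hU hfd
  · rintro K' _ _ _ B' ⟨⟨T, hT, hTB, hBT⟩, hBK⟩ D I₀ hD hI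
    refine Pool.Agent.V7H77.RG.nwd hHJ hU hfd K' (T := T) ⟨hT, hTB, hBT⟩ (fun z => ?_) hD hI
    obtain ⟨b, hb, c, hc, hc0, rfl⟩ := hBK z
    obtain ⟨a, ha, s, hs, hs0, -, rfl⟩ := hBT b hb
    obtain ⟨a', ha', s', hs', hs'0, -, rfl⟩ := hBT c hc
    have ha'0 : a' ≠ 0 := left_ne_zero_of_mul hc0
    refine ⟨a * s', Subring.mul_mem _ ha hs', s * a', Subring.mul_mem _ hs ha',
      mul_ne_zero hs0 ha'0, ?_⟩
    field_simp
  · intro _
    rw [hset']
    exact Pool.Agent.V7H77.RG.meagre_uu hHJ hU hE hK
  · intro _ hne
    exact IsMeagre.mono (fun V hV h => hV (valg_of h))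
      (Pool.Agent.V7H77.RG.meagre_va hHJ hne hU hE hK)
  · intro _ hne hD
    have hm1 : IsMeagre {V : Extensions V₀ K |
        ¬ Pool.Agent.V7H77.RG.UU ((algebraMap E K).comp ρ) V.1} :=
      Pool.Agent.V7H77.RG.meagre_uu hHJ hU hE hK
    have hm2 : IsMeagre {V : Extensions V₀ K | ¬ Pool.Agent.V7H77.RG.DAE V.1} :=
      Pool.Agent.V7H77.RG.meagre_dae hHJ hne hU hD hE hK
    refine IsMeagre.mono ?_ (hm1.union hm2)
    intro V hV
    by_contra hcon
    rw [Set.mem_union, not_or] at hcon
    have h1 : Pool.Agent.V7H77.RG.UU ((algebraMap E K).comp ρ) V.1 := by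
      by_contra h
      exact hcon.1 h
    have h2 : Pool.Agent.V7H77.RG.DAE V.1 := by
      by_contra h
      exact hcon.2 h
    exact hV ⟨h2, simple_of hHJ hKR h1 h2⟩

end Pool.Agent.Results.MP_5b7a2c_ag.GenericExtensionsH77
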