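import Pool.Agent.V7H82.ZR.Main
import Pool.Agent.TH188.QS.Bases3

/-!
MP_5b7a2c_ag: the valuations with a given centre which are not log uniformizable form a meagre set, in arbitrary
dimension and (mixed) characteristic.

Let `R` be a ring each of whose quotient domains is a field, or is of finite type over a regular domain `R₁` such that
`R₁` is `F`-finite, or `R₁` is formally smooth over a perfect field, or `R₁` is contained in the quotient and the
quotient has characteristic zero. (Examples: fields, Dedekind domains of characteristic zero, `F`-finite rings, complete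
local rings with `F`-finite residue fields.) Let `X = Spec B` be integral and essentially of finite type over `R`, let `K`
be any field which contains `B`, and `x` a point of `X`, with the prime ideal `𝔭`. The set `Centred B 𝔭` of the valuation
rings `V` of `K` with centre `x` on `X` is nonempty, compact and Hausdorff for the patch topology, in which the sets of the
`V` which contain a given element of `K` are open and closed; so it is a Baire space.

1. For all closed sets `V(D)` and all blowings-up `X₀` of `X`, those `V` for which there is no blowing-up `X' → X₀` which is a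
   log desingularization of `(X, V(D))` along `V` form a nowhere dense set.
2. If `R` is countable (for example, finitely generated over the integers, or a countable field, or the algebraic closure
   of `𝔽_p (t)`), then those `V` which are not log uniformizable form a meagre set: almost all valuations, in the sense
   of Baire category, with any given centre are log uniformizable.

The proof. (a) If `X' → X` is a log desingularization along `V` then, by the Jacobian condition for the closure of the
centre of `V` on `X'`, it is a log desingularization along all `V'` in a neighbourhood of `V` for the patch topology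
(`V7H82/ZR/Spr`, `Near`). (b) The valuation rings `W` with centre `x` which are discrete or trivial on a subfield which
contains `B` and finitely many given elements are dense (`Gen`), and for them there are log desingularizations, by
helper188's theorem on discrete valuations (start library `TH188/QS`, `W418/LU2`). So the set in 1. is nowhere dense, and
there are only countably many pairs of ideals if `R` is countable.

helper82; built on the library of the starting files.
-/

set_option autoImplicit false

universe u

namespace Pool.Agent.Results.MP_5b7a2c_ag.GenericValuationsH82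

open IsLocalRing Pool.Agent.W418.LU2 Pool.Agent.TH188.QS

/-- The local ring of `Spec B` at the centre of the valuation ring `V`: the fractions of elements
of `B` whose denominators are units of `V`. -/
def centreRing {F : Type u} [Field F] (V : ValuationSubring F) (B : Subring F) : Subring F where
  carrier := {x | ∃ a ∈ B, ∃ b ∈ B, b ≠ 0 ∧ b⁻¹ ∈ V ∧ x = a * b⁻¹}
  mul_mem' := (lo V.toSubring B).mul_mem'
  one_mem' := (lo V.toSubring B).one_mem'
  add_mem' := (lo V.toSubring B).add_mem'
  zero_mem' := (lo V.toSubring B).zero_mem'
  neg_mem' := (lo V.toSubring B).neg_mem'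

/-- The chart `A[I / f]` of the blowing-up of `Spec A` in the ideal `I`. -/
def blowUpChart {F : Type u} [Field F] (A : Subring F) (I : Ideal A) (f : A) : Subring F :=
  Subring.closure ((A : Set F) ∪ {z | ∃ a ∈ I, z = (a : F) / (f : F)})

/-- `P` is a regular local ring and the zero set of `J` is a divisor with strict normal
crossings: the radical of `J` is generated by the product of some of the elements of a regular
system of parameters. -/
def RegularPair (P : Type u) [CommRing P] (J : Ideal P) : Prop :=
  ∃ (_ : IsRegularLocalRing P) (n : ℕ) (x : Fin n → P) (s : Finset (Fin n)),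
    Ideal.span (Set.range x) = IsLocalRing.maximalIdeal P ∧ ringKrullDim P = n ∧
      J.radical = Ideal.span {∏ i ∈ s, x i}

/-- The blowing-up of `X = Spec A` in `V(I)` is a log desingularization of `(X, V(D))` along the
valuation ring `V`. Here `f ∈ I` generates `I V`, the centre of the lift of the valuation lies in
the chart `Spec A[I / f]`, and the ideal `D I` defines the preimage of `V(D) ∪ V(I)`. -/
def IsLogDesingularization {F : Type u} [Field F] (V : ValuationSubring F) (A : Subring F)
    (D I : Ideal A) : Prop :=
  ∃ f ∈ I, f ≠ 0 ∧ (∀ a ∈ I, (a : F) / (f : F) ∈ V) ∧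
    RegularPair (centreRing V (blowUpChart A I f))
      (Ideal.span {z | ∃ a ∈ D * I, (z : F) = (a : F)})

/-- The valuation ring `V` is log uniformizable on `Spec A`. (The blowings-up in the ideals
`I₀ * I₁` are cofinal: the blowing-up in `I₀ * I₁` factors through the blowing-up in `I₀`.) -/
def IsLogUniformizable {F : Type u} [Field F] (V : ValuationSubring F) (A : Subring F) : Prop :=
  ∀ D I₀ : Ideal A, D ≠ ⊥ → I₀ ≠ ⊥ →
    ∃ I₁ : Ideal A, I₁ ≠ ⊥ ∧ IsLogDesingularization V A D (I₀ * I₁)

/-- A ring of prime characteristic `p` which is a finite module over its ring of `p`-th powers. -/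
def IsFFinite (R : Type u) [CommRing R] : Prop :=
  ∃ (p : ℕ) (_ : Fact p.Prime) (_ : CharP R p), (frobenius R p).Finite

/-- A ring which is formally smooth over a perfect field. -/
def IsFormallySmoothOverPerfectField (R : Type u) [CommRing R] : Prop :=
  ∃ (k : Type u) (_ : Field k) (_ : PerfectField k) (_ : Algebra k R), Algebra.FormallySmooth k R

/-- The rings `R` over which the domains of finite type are considered: each quotient domain
`R / 𝔭` is a field, or it is of finite type over a regular domain `R₁` such that `R₁` is `F`-finite,
or `R₁` is formally smooth over a perfect field, or `R₁` is a subring of `R / 𝔭` and `R / 𝔭` has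
characteristic zero. -/
def IsBaseRing (R : Type u) [CommRing R] : Prop :=
  ∀ 𝔭 : Ideal R, 𝔭.IsPrime → IsField (R ⧸ 𝔭) ∨
    ∃ (R₁ : Type u) (_ : CommRing R₁) (_ : IsDomain R₁) (_ : IsRegularRing R₁)
      (σ : R₁ →+* R ⧸ 𝔭), σ.FiniteType ∧
        (IsFFinite R₁ ∨ IsFormallySmoothOverPerfectField R₁ ∨
          (Function.Injective σ ∧ CharZero (R ⧸ 𝔭)))

/-- The image of the `R`-algebra generated by `T`. -/
def adjoined {R K : Type u} [CommRing R] [Field K] (ρ : R →+* K) (T : Set K) : Subring K :=
  Subring.closure ((ρ.range : Set K) ∪ T)

/-- `B` is a localization of a finitely generated `R`-algebra. -/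
def IsEssentiallyOfFiniteType {R K : Type u} [CommRing R] [Field K] (ρ : R →+* K)
    (B : Subring K) : Prop :=
  ∃ T : Set K, T.Finite ∧ adjoined ρ T ≤ B ∧
    ∀ b ∈ B, ∃ a ∈ adjoined ρ T, ∃ s ∈ adjoined ρ T, s ≠ 0 ∧ s⁻¹ ∈ B ∧ b = a * s⁻¹

/-- The blowing-up problem `(D, I₀)` is solvable along the valuation ring `V`: some blowing-up of `X = Spec A` which factors
through the blowing-up in `I₀` is a log desingularization of `(X, V(D))` along `V`. -/
def IsSolvable {F : Type u} [Field F] (V : ValuationSubring F) (A : Subring F) (D I₀ : Ideal A) :
    Prop :=
  ∃ I₁ : Ideal A, I₁ ≠ ⊥ ∧ IsLogDesingularization V A D (I₀ * I₁)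

/-- The valuation rings of `K` which contain `B` and whose centre on `Spec B` is the point `𝔭`. -/
def Centred {K : Type u} [Field K] (B : Subring K) (𝔭 : Ideal B) : Type u :=
  {V : ValuationSubring K // B ≤ V.toSubring ∧ ∀ b : B, b ∈ 𝔭 ↔ V.valuation (b : K) < 1}

/-- The patch topology (constructible topology) of the Zariski-Riemann space: the sets of the valuation rings which
contain `x`, and their complements, are open. -/
instance patchTopology {K : Type u} [Field K] (B : Subring K) (𝔭 : Ideal B) :
    TopologicalSpace (Centred B 𝔭) :=
  TopologicalSpace.generateFrom {U | ∃ x : K, U = {V | x ∈ V.1} ∨ U = {V | x ∉ V.1}}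

/-- Let `R` be a base ring: each quotient domain `R / 𝔭` is a field, or is of finite type over a regular domain `R₁` such
that `R₁` is `F`-finite, or `R₁` is formally smooth over a perfect field, or `R₁` is a subring of `R / 𝔭` and `R / 𝔭`
has characteristic zero. Let `K` be a field which is an `R`-algebra by `ρ`, let `B` be a subring of `K` which is
essentially of finite type over `R`, and `𝔭` a prime ideal of `B`. The space of the valuation rings of `K` with centre `𝔭`
on `Spec B` is nonempty, compact and Hausdorff for the patch topology. For all nonzero ideals `D` and `I₀` the problem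
`(D, I₀)` is solvable along all valuation rings outside a nowhere dense subset. If `R` is countable then all valuation
rings outside a meagre subset are log uniformizable on `Spec B`. -/
theorem result {R : Type u} [CommRing R] (hR : IsBaseRing R) {K : Type u} [Field K] (ρ : R →+* K)
    (B : Subring K) (hB : IsEssentiallyOfFiniteType ρ B) (𝔭 : Ideal B) [𝔭.IsPrime] :
    Nonempty (Centred B 𝔭) ∧ CompactSpace (Centred B 𝔭) ∧ T2Space (Centred B 𝔭) ∧
    (∀ D I₀ : Ideal B, D ≠ ⊥ → I₀ ≠ ⊥ →
      IsNowhereDense {V : Centred B 𝔭 | ¬ IsSolvable V.1 B D I₀}) ∧
    (Countable R → IsMeagre {V : Centred B 𝔭 | ¬ IsLogUniformizable V.1 B}) := by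
  obtain ⟨T, hT, hTB, hBT⟩ := hB
  have hE : Pool.Agent.V7H82.ZR.Ess ρ T B := ⟨hT, hTB, hBT⟩
  have hHJ : HJ R := BR.hj hR
  exact ⟨Pool.Agent.V7H82.ZR.cen_nonempty, Pool.Agent.V7H82.ZR.cen_compact,
    Pool.Agent.V7H82.ZR.cen_t2,
    fun D I₀ hD hI => Pool.Agent.V7H82.ZR.cen_nowhereDense hHJ hE hD hI,
    fun _ => Pool.Agent.V7H82.ZR.cen_meagre hHJ hE⟩

end Pool.Agent.Results.MP_5b7a2c_ag.GenericValuationsH82
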