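import Pool.Agent.V7H82.ZS.Dens
import Pool.Agent.TH188.QS.Bases3

/-!
MP_5b7a2c_ag: almost all valuations centred at a point of codimension at least two of a normal scheme have value group `ℚ`,
an algebraically closed residue field and an algebraically closed completion, and they are log uniformizable, in
arbitrary dimension and (mixed) characteristic.

Let `R` be a countable ring each of whose quotient domains is a field, or is of finite type over a regular domain `R₁` such
that `R₁` is `F`-finite, or `R₁` is formally smooth over a perfect field, or `R₁` is contained in the quotient and the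
quotient has characteristic zero. (Examples: finitely generated rings over the integers, countable fields.) Let
`X = Spec B` be integral and essentially of finite type over `R`, with function field `K`, and let `x` be a point of `X`,
with the prime ideal `𝔭`. The set `Centred B 𝔭` of the valuation rings of `K` with centre `x` on `X` is a Baire space for the
patch topology.

1. Almost all `V` (outside a meagre set) are log uniformizable on `X`, any two values in the maximal ideal are
   commensurable (so the rank and the rational rank are at most one), the residue field is algebraic over the one of `x`,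
   and either `V` is an isolated point, or the value group is divisible, the residue field is algebraically closed, and
   `K` is dense in each of its algebraic extensions (for each extension of `V` to it), so that the completion of `K` is
   algebraically closed.
2. If `X` is normal at all points and `x` has codimension at least two then there are no isolated points. So the value group
   of almost all `V` is isomorphic to `ℚ`, their residue field is an algebraic closure of the residue field of `x`, their
   completion is algebraically closed, and they are log uniformizable.

These valuations are neither discrete nor Abhyankar valuations: they are of the type (rank one, residue field algebraic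
over the one of the centre, value group not finitely generated) for which local uniformization is the difficult question.
In characteristic `p` all of them have a defect: each extension `K (z ^ (1 / p))` of degree `p` is contained in the completion
of `K`, so it is immediate.

The proof. The meagreness of the valuations which are not log uniformizable is the result `GenericValuationsH82`. A log
uniformizable `V` dominates regular local rings `P`, essentially of finite type over `B`, in which a given element `z` is a
monomial in a regular system of parameters. If the maximal ideal of `P` is not principal there is an element `t` of it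
which is not divisible by any of the parameters. Then `z`, `t ^ n` is a regular sequence, so all polynomials over `P` with the
root `z / t ^ n` have coefficients in the maximal ideal (`ZS/Kap`); hence there are valuation rings which dominate `P`
in which `z / t ^ n` satisfies a given monic equation modulo the maximal ideal. With the equation `X - 1` this gives the
divisibility of the value of `z` by `n`, and with other equations the roots in the residue field, in each neighbourhood
of `V` (`ZS/Reg`, `ZS/Near`, `ZS/Iso`). More generally a monic polynomial `g` over `P` gets roots of every precision: if `δ` is a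
monomial and `u = t / δ` then `g (u)` and `δ` form a regular sequence in a local ring of `P [u]`, so `g (u) / δ` is in the
maximal ideal of a valuation ring which dominates `P` (`ZS/Apx`). Then the elements which are approximated by `K` form a
subfield of the algebraic closure in which each polynomial over `K` has a root, so it is everything (`ZS/Dens`). If the maximal ideal of `P` is principal then `P = V` and, when the residues are
algebraic, `V` is isolated. The statement on isolated points follows from Zariski's main theorem (`ZS/Zmt`).

helper82; built on the library of the starting files.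
-/

set_option autoImplicit false

universe u

namespace Pool.Agent.Results.MP_5b7a2c_ag.ResidualStructureH82

open IsLocalRing Pool.Agent.W418.LU2 Pool.Agent.TH188.QS

/-- The local ring of `Spec B` at the centre of the valuation ring `V`: the fractions of elements
of `B` whose denominators are units of `V`. -/
def centreRing {F : Type u} [Field F] (V : ValuationSubring F) (B : Subring F) : Subring F where
  carrier := {x | ∃ a ∈ B, ∃ b ∈ B, b ≠ 0 ∧ b⁻¹ ∈ V ∧ x = a * b⁻¹}
  mul_mem' := (lo V.toSubring B).mul_mem'
  one_mem' := (lo V.toSubring B).one_mem'
  add_mem' := (lo V.toSubring B).add_mem'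
  zero_mem' := (lo V.toSubring B).zero_mem'
  neg_mem' := (lo V.toSubring B).neg_mem'

/-- The chart `A[I / f]` of the blowing-up of `Spec A` in the ideal `I`. -/
def blowUpChart {F : Type u} [Field F] (A : Subring F) (I : Ideal A) (f : A) : Subring F :=
  Subring.closure ((A : Set F) ∪ {z | ∃ a ∈ I, z = (a : F) / (f : F)})

/-- `P` is a regular local ring and the zero set of `J` is a divisor with strict normal
crossings: the radical of `J` is generated by the product of some of the elements of a regular
system of parameters. -/
def RegularPair (P : Type u) [CommRing P] (J : Ideal P) : Prop :=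
  ∃ (_ : IsRegularLocalRing P) (n : ℕ) (x : Fin n → P) (s : Finset (Fin n)),
    Ideal.span (Set.range x) = IsLocalRing.maximalIdeal P ∧ ringKrullDim P = n ∧
      J.radical = Ideal.span {∏ i ∈ s, x i}

/-- The blowing-up of `X = Spec A` in `V(I)` is a log desingularization of `(X, V(D))` along the
valuation ring `V`. Here `f ∈ I` generates `I V`, the centre of the lift of the valuation lies in
the chart `Spec A[I / f]`, and the ideal `D I` defines the preimage of `V(D) ∪ V(I)`. -/
def IsLogDesingularization {F : Type u} [Field F] (V : ValuationSubring F) (A : Subring F)
    (D I : Ideal A) : Prop :=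
  ∃ f ∈ I, f ≠ 0 ∧ (∀ a ∈ I, (a : F) / (f : F) ∈ V) ∧
    RegularPair (centreRing V (blowUpChart A I f))
      (Ideal.span {z | ∃ a ∈ D * I, (z : F) = (a : F)})

/-- The valuation ring `V` is log uniformizable on `Spec A`. (The blowings-up in the ideals
`I₀ * I₁` are cofinal: the blowing-up in `I₀ * I₁` factors through the blowing-up in `I₀`.) -/
def IsLogUniformizable {F : Type u} [Field F] (V : ValuationSubring F) (A : Subring F) : Prop :=
  ∀ D I₀ : Ideal A, D ≠ ⊥ → I₀ ≠ ⊥ →
    ∃ I₁ : Ideal A, I₁ ≠ ⊥ ∧ IsLogDesingularization V A D (I₀ * I₁)

/-- A ring of prime characteristic `p` which is a finite module over its ring of `p`-th powers. -/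
def IsFFinite (R : Type u) [CommRing R] : Prop :=
  ∃ (p : ℕ) (_ : Fact p.Prime) (_ : CharP R p), (frobenius R p).Finite

/-- A ring which is formally smooth over a perfect field. -/
def IsFormallySmoothOverPerfectField (R : Type u) [CommRing R] : Prop :=
  ∃ (k : Type u) (_ : Field k) (_ : PerfectField k) (_ : Algebra k R), Algebra.FormallySmooth k R

/-- The rings `R` over which the domains of finite type are considered: each quotient domain
`R / 𝔭` is a field, or it is of finite type over a regular domain `R₁` such that `R₁` is `F`-finite,
or `R₁` is formally smooth over a perfect field, or `R₁` is a subring of `R / 𝔭` and `R / 𝔭` has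
characteristic zero. -/
def IsBaseRing (R : Type u) [CommRing R] : Prop :=
  ∀ 𝔭 : Ideal R, 𝔭.IsPrime → IsField (R ⧸ 𝔭) ∨
    ∃ (R₁ : Type u) (_ : CommRing R₁) (_ : IsDomain R₁) (_ : IsRegularRing R₁)
      (σ : R₁ →+* R ⧸ 𝔭), σ.FiniteType ∧
        (IsFFinite R₁ ∨ IsFormallySmoothOverPerfectField R₁ ∨
          (Function.Injective σ ∧ CharZero (R ⧸ 𝔭)))

/-- The image of the `R`-algebra generated by `T`. -/
def adjoined {R K : Type u} [CommRing R] [Field K] (ρ : R →+* K) (T : Set K) : Subring K :=
  Subring.closure ((ρ.range : Set K) ∪ T)

/-- `B` is a localization of a finitely generated `R`-algebra. -/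
def IsEssentiallyOfFiniteType {R K : Type u} [CommRing R] [Field K] (ρ : R →+* K)
    (B : Subring K) : Prop :=
  ∃ T : Set K, T.Finite ∧ adjoined ρ T ≤ B ∧
    ∀ b ∈ B, ∃ a ∈ adjoined ρ T, ∃ s ∈ adjoined ρ T, s ≠ 0 ∧ s⁻¹ ∈ B ∧ b = a * s⁻¹

/-- The valuation rings of `K` which contain `B` and whose centre on `Spec B` is the point `𝔭`. -/
def Centred {K : Type u} [Field K] (B : Subring K) (𝔭 : Ideal B) : Type u :=
  {V : ValuationSubring K // B ≤ V.toSubring ∧ ∀ b : B, b ∈ 𝔭 ↔ V.valuation (b : K) < 1}

/-- The patch topology (constructible topology) of the Zariski-Riemann space: the sets of the valuation rings which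
contain `x`, and their complements, are open. -/
instance patchTopology {K : Type u} [Field K] (B : Subring K) (𝔭 : Ideal B) :
    TopologicalSpace (Centred B 𝔭) :=
  TopologicalSpace.generateFrom {U | ∃ x : K, U = {V | x ∈ V.1} ∨ U = {V | x ∉ V.1}}

/-- Any two values in the maximal ideal are commensurable: the value group has rank and rational rank at most one. -/
def HasCommensurableValues {K : Type u} [Field K] (V : ValuationSubring K) : Prop :=
  ∀ x y : K, x ≠ 0 → y ≠ 0 → V.valuation x < 1 → V.valuation y < 1 →
    ∃ m n : ℕ, 0 < m ∧ 0 < n ∧ V.valuation x ^ m = V.valuation y ^ n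

/-- The value group is divisible. -/
def HasDivisibleValues {K : Type u} [Field K] (V : ValuationSubring K) : Prop :=
  ∀ x : K, x ≠ 0 → ∀ n : ℕ, 0 < n → ∃ y : K, V.valuation y ^ n = V.valuation x

/-- The residue field of `V` is algebraic over the residue field of the point `𝔭`: each element of `V` satisfies modulo the
maximal ideal of `V` a polynomial equation over `B` some coefficient of which is not in `𝔭`. -/
def HasAlgebraicResidues {K : Type u} [Field K] {B : Subring K} (𝔭 : Ideal B)
    (V : ValuationSubring K) : Prop :=
  ∀ z ∈ V, ∃ f : Polynomial B, (∃ i, f.coeff i ∉ 𝔭) ∧ V.valuation (Polynomial.aeval z f) < 1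

/-- `V` is log uniformizable on `Spec B`, of rank and rational rank at most one, and its residue field is algebraic over the
one of the centre. -/
def IsUniformizable {K : Type u} [Field K] {B : Subring K} {𝔭 : Ideal B} (V : Centred B 𝔭) :
    Prop :=
  IsLogUniformizable V.1 B ∧ HasCommensurableValues V.1 ∧ HasAlgebraicResidues 𝔭 V.1

/-- `K` is dense in each algebraic extension `L` of it, for each valuation ring `W` of `L` over `V`. (So the completion
of `K` is algebraically closed.) -/
def IsDenseInAlgebraicExtensions {K : Type u} [Field K] (V : ValuationSubring K) : Prop :=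
  ∀ (L : Type u) [Field L] [Algebra K L] [Algebra.IsAlgebraic K L] (W : ValuationSubring L),
    W.comap (algebraMap K L) = V → ∀ θ c : L, c ≠ 0 →
      ∃ y : K, W.valuation (θ - algebraMap K L y) < W.valuation c

/-- The value group is divisible, the residue field is algebraically closed, and `K` is dense in its algebraic
extensions. -/
def IsSaturated {K : Type u} [Field K] {B : Subring K} {𝔭 : Ideal B} (V : Centred B 𝔭) : Prop :=
  HasDivisibleValues V.1 ∧ IsAlgClosed (ResidueField V.1) ∧ IsDenseInAlgebraicExtensions V.1

/-- `V` is an isolated point of the space of the valuation rings centred at `𝔭`. -/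
def IsIsolated {K : Type u} [Field K] {B : Subring K} {𝔭 : Ideal B} (V : Centred B 𝔭) : Prop :=
  IsOpen ({V} : Set (Centred B 𝔭))

/-- The valuation rings with centre `𝔭` outside a meagre set have the property `P`. -/
def AlmostAll {K : Type u} [Field K] {B : Subring K} {𝔭 : Ideal B} (P : Centred B 𝔭 → Prop) :
    Prop :=
  IsMeagre {V : Centred B 𝔭 | ¬ P V}

/-- Let `R` be a countable base ring, let `B` be a domain essentially of finite type over `R` with the field of fractions
`K`, and `𝔭` a prime ideal of `B`. The space of the valuation rings of `K` with centre `𝔭` on `Spec B` is a nonempty Baire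
space for the patch topology. All `V` outside a meagre subset are log uniformizable on `Spec B`, have commensurable values
and residues algebraic over the residue field of `𝔭`, and they are isolated points or have a divisible value group and
an algebraically closed residue field, and `K` is dense in its algebraic extensions. If `B` is integrally closed and `𝔭` has
height at least two then all `V` outside a meagre subset are log uniformizable, their value group is divisible with
commensurable values (so it is isomorphic to `ℚ`), their residue field is algebraically closed and algebraic over the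
residue field of `𝔭`, and `K` is dense in its algebraic extensions. -/
theorem result {R : Type u} [CommRing R] [Countable R] (hR : IsBaseRing R) {K : Type u} [Field K]
    (ρ : R →+* K) (B : Subring K) (hB : IsEssentiallyOfFiniteType ρ B) [IsFractionRing B K]
    (𝔭 : Ideal B) [𝔭.IsPrime] :
    Nonempty (Centred B 𝔭) ∧ BaireSpace (Centred B 𝔭) ∧
    AlmostAll (fun V : Centred B 𝔭 => IsUniformizable V ∧ (IsIsolated V ∨ IsSaturated V)) ∧
    (IsIntegrallyClosed B → 1 < 𝔭.height →
      AlmostAll fun V : Centred B 𝔭 => IsUniformizable V ∧ IsSaturated V) := by
  obtain ⟨T, hT, hTB, hBT⟩ := hB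
  have hE : Pool.Agent.V7H82.ZR.Ess ρ T B := ⟨hT, hTB, hBT⟩
  have hHJ : HJ R := BR.hj hR
  have hfr : ∀ z : K, Fr B z := by
    intro z
    obtain ⟨a, b, hb, rfl⟩ := IsFractionRing.div_surjective (A := B) z
    exact ⟨a, a.2, b, b.2, fun h => nonZeroDivisors.ne_zero hb (Subtype.ext h), div_eq_mul_inv _ _⟩
  have hcomm : ∀ V : ValuationSubring K, (∀ x y, Pool.Agent.V7H82.ZS.Comm V x y) →
      HasCommensurableValues V := by
    intro V h x y hx hy hxv hyv
    obtain ⟨m, n, hm, hn, hmn⟩ := h x y hx hy hxv hyv
    refine ⟨m, n, hm, hn, ?_⟩
    rw [map_div₀, map_pow, map_pow] at hmn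
    exact (div_eq_one_iff_eq (pow_ne_zero _ ((map_ne_zero _).2 hy))).1 hmn
  have hdiv : ∀ V : ValuationSubring K, (∀ z : K, z ≠ 0 → ∀ M : ℕ, 0 < M → ∃ y : K, y ≠ 0 ∧
      V.valuation (z / y ^ M) = 1) → HasDivisibleValues V := by
    intro V h z hz M hM
    obtain ⟨y, hy0, hy⟩ := h z hz M hM
    refine ⟨y, ?_⟩
    rw [map_div₀, map_pow] at hy
    exact ((div_eq_one_iff_eq (pow_ne_zero _ ((map_ne_zero _).2 hy0))).1 hy).symm
  have hsat : ∀ V : Centred B 𝔭, Pool.Agent.V7H82.ZS.Apx V.1 → IsSaturated V := by
    intro V h
    refine ⟨hdiv _ h.pow, h.closed, ?_⟩
    intro L _ _ _ W hW θ c hc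
    exact h.dense hW θ c hc
  have hres := Pool.Agent.V7H82.ZS.residual_apx (𝔭 := 𝔭) hHJ hE hfr
  have hcomp : CompactSpace (Centred B 𝔭) := Pool.Agent.V7H82.ZR.cen_compact
  have ht2 : T2Space (Centred B 𝔭) := Pool.Agent.V7H82.ZR.cen_t2
  have hall : ∀ P : Centred B 𝔭 → Prop, {V | P V} ∈ residual (Centred B 𝔭) → AlmostAll P := by
    intro P hP
    unfold AlmostAll IsMeagre
    convert hP using 1
    ext V
    simp
  refine ⟨Pool.Agent.V7H82.ZR.cen_nonempty, inferInstance, hall _ ?_, fun hn hht => hall _ ?_⟩
  · refine Filter.mem_of_superset hres ?_
    rintro V ⟨h1, h2, h3, h4⟩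
    refine ⟨⟨h1, hcomm _ h2, h3⟩, ?_⟩
    rcases h4 with h4 | h4
    · exact Or.inl ((Pool.Agent.V7H82.ZS.isol_iff V).1 h4)
    · exact Or.inr (hsat V h4)
  · refine Filter.mem_of_superset hres ?_
    rintro V ⟨h1, h2, h3, h4⟩
    rcases h4 with h4 | h4
    · exact absurd h4 (Pool.Agent.V7H82.ZS.no_isol hHJ hE hfr hht V)
    · exact ⟨⟨h1, hcomm _ h2, h3⟩, hsat V h4⟩

end Pool.Agent.Results.MP_5b7a2c_ag.ResidualStructureH82
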