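import Pool.Agent.V7H82.ZT.Tow
import Pool.Agent.TH188.QS.Bases3

/-!
MP_5b7a2c_ag: for almost all valuations `V₀` of a field `K₀` with a given centre EVERY valuation of `K₀(t)` over `V₀` is
log uniformizable on all models, in arbitrary dimension and (mixed) characteristic.

Let `R` be a ring each of whose quotient domains is a field, or is of finite type over a regular domain `R₁` such that `R₁` is
`F`-finite, or `R₁` is formally smooth over a perfect field, or `R₁` is contained in the quotient and the quotient has
characteristic zero. Let `K₀` be a finitely generated field over `R`. We call a valuation ring `V₀` of `K₀` over `R` stable if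
`K₀` is dense in each of its algebraic extensions, for each extension of `V₀` (so the completion of `K₀` is
algebraically closed), and all extensions of `V₀` to finite extensions of `K₀` are log uniformizable on all models.

1. If `V₀` is stable and `K = K₀(t)` is any simple extension of `K₀` then every valuation ring `W` of `K` over `V₀` is log
   uniformizable on all models of `K` over `R`. There is no condition on the rank of `W`, on the value group and the
   residue field (they can be equal to those of `V₀`, and `W` is then given by a pseudo-convergent sequence), and on the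
   defect (for example `K` can be a purely inseparable extension of `K₀`).
2. Let `R` be countable and let `X = Spec B` be integral and essentially of finite type over `R`, with the function field
   `K₀`, and `x ∈ X`. The valuation rings of `K₀` with centre `x` form a nonempty Baire space for the patch topology. All of
   them outside a meagre set are stable, or isolated points. If `X` is normal and `x` has codimension at least two then all of
   them outside a meagre set are stable.
3. Let `V₀` be stable and let `L` be a field obtained from `K₀` by adjoining finitely many elements, each of them transcendental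
   or separable over the field generated before, and `K = L(t)`, `t` transcendental or separable over `L`. Then every
   valuation ring `W` of `K` over `V₀` such that `K₀` is dense in `L` and the values of `K₀` are cofinal in those of `K` is log
   uniformizable on all models. (There is no condition on the transcendence degree of `K`, and on `W` besides the one on its
   restriction to `L`.)
4. If `K₀` has characteristic zero (for example in the case of mixed characteristic), `V₀` is stable, `K` is finitely generated
   over `K₀` and `K₀` is dense in `K` for the valuation ring `W` over `V₀` then `W` is stable. So 1 applies to `K(t)` again.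

For example, if `K₀` is a function field of dimension three over a finite field then for almost all valuations `V₀` of `K₀` with
centre at a given closed point all valuations of `K₀(t)` over `V₀` (valuations on varieties of dimension four) are log
uniformizable.

The proof of 2. The density is proved as in `ResidualStructureH82`. For the extensions `V'` of `V₀` to finite extensions `L` one
uses: (a) `V'` is discrete or trivial if `V₀` is, by the theorem of Krull and Akizuki (`ZT/Dv`), and the `V₀` of this kind are
dense; (b) if all extensions of `V₀` are solved (for given finite data in an algebraic closure) then the same is true for all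
valuation rings near `V₀`, by the compactness of the space of all valuation rings (`ZT/Cpt`, `ZT/Her`).
The proof of 1. If the values of `K₀` are cofinal in `W` and `t` is transcendental then the value of each polynomial `f ∈ K₀[X]` at
`t` is determined by a linear key polynomial `X - a` with `a ∈ K₀`: choose `a` near the root of `f` which is nearest to `t`
(`ZT/Lin`). So the theorem on towers without defect of the starting library applies. If the values are not cofinal then `W` is
composite of a discrete valuation ring over `K₀` and a valuation ring over `V₀` of its residue field, which is algebraic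
over `K₀` (`ZT/Comp`).
The proof of 3 and 4. The completion of `L` is algebraically closed too: roots of polynomials over `L` are approximated by roots
of polynomials over `K₀` (`ZT/Sep`). So transcendental elements are determined by linear key polynomials. If `θ` is separable
over `L` and a limit of elements of `L` then for a suitable `a ∈ L` the ring generated by `c / (θ - a)` is étale at the centre of
the valuation (`ZT/Sep`, `ZT/Tow`).

helper82; built on the library of the starting files.
-/

set_option autoImplicit false

universe u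

namespace Pool.Agent.Results.MP_5b7a2c_ag.SimpleExtensionsH82

open IsLocalRing Pool.Agent.W418.LU2 Pool.Agent.TH188.QS

/-- The local ring of `Spec B` at the centre of the valuation ring `V`: the fractions of elements
of `B` whose denominators are units of `V`. -/
def centreRing {F : Type u} [Field F] (V : ValuationSubring F) (B : Subring F) : Subring F where
  carrier := {x | ∃ a ∈ B, ∃ b ∈ B, b ≠ 0 ∧ b⁻¹ ∈ V ∧ x = a * b⁻¹}
  mul_mem' := (lo V.toSubring B).mul_mem'
  one_mem' := (lo V.toSubring B).one_mem'
  add_mem' := (lo V.toSubring B).add_mem'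
  zero_mem' := (lo V.toSubring B).zero_mem'
  neg_mem' := (lo V.toSubring B).neg_mem'

/-- The chart `A[I / f]` of the blowing-up of `Spec A` in the ideal `I`. -/
def blowUpChart {F : Type u} [Field F] (A : Subring F) (I : Ideal A) (f : A) : Subring F :=
  Subring.closure ((A : Set F) ∪ {z | ∃ a ∈ I, z = (a : F) / (f : F)})

/-- `P` is a regular local ring and the zero set of `J` is a divisor with strict normal
crossings: the radical of `J` is generated by the product of some of the elements of a regular
system of parameters. -/
def RegularPair (P : Type u) [CommRing P] (J : Ideal P) : Prop :=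
  ∃ (_ : IsRegularLocalRing P) (n : ℕ) (x : Fin n → P) (s : Finset (Fin n)),
    Ideal.span (Set.range x) = IsLocalRing.maximalIdeal P ∧ ringKrullDim P = n ∧
      J.radical = Ideal.span {∏ i ∈ s, x i}

/-- The blowing-up of `X = Spec A` in `V(I)` is a log desingularization of `(X, V(D))` along the
valuation ring `V`. Here `f ∈ I` generates `I V`, the centre of the lift of the valuation lies in
the chart `Spec A[I / f]`, and the ideal `D I` defines the preimage of `V(D) ∪ V(I)`. -/
def IsLogDesingularization {F : Type u} [Field F] (V : ValuationSubring F) (A : Subring F)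
    (D I : Ideal A) : Prop :=
  ∃ f ∈ I, f ≠ 0 ∧ (∀ a ∈ I, (a : F) / (f : F) ∈ V) ∧
    RegularPair (centreRing V (blowUpChart A I f))
      (Ideal.span {z | ∃ a ∈ D * I, (z : F) = (a : F)})

/-- The valuation ring `V` is log uniformizable on `Spec A`. (The blowings-up in the ideals
`I₀ * I₁` are cofinal: the blowing-up in `I₀ * I₁` factors through the blowing-up in `I₀`.) -/
def IsLogUniformizable {F : Type u} [Field F] (V : ValuationSubring F) (A : Subring F) : Prop :=
  ∀ D I₀ : Ideal A, D ≠ ⊥ → I₀ ≠ ⊥ →
    ∃ I₁ : Ideal A, I₁ ≠ ⊥ ∧ IsLogDesingularization V A D (I₀ * I₁)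

/-- A ring of prime characteristic `p` which is a finite module over its ring of `p`-th powers. -/
def IsFFinite (R : Type u) [CommRing R] : Prop :=
  ∃ (p : ℕ) (_ : Fact p.Prime) (_ : CharP R p), (frobenius R p).Finite

/-- A ring which is formally smooth over a perfect field. -/
def IsFormallySmoothOverPerfectField (R : Type u) [CommRing R] : Prop :=
  ∃ (k : Type u) (_ : Field k) (_ : PerfectField k) (_ : Algebra k R), Algebra.FormallySmooth k R

/-- The rings `R` over which the domains of finite type are considered: each quotient domain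
`R / 𝔭` is a field, or it is of finite type over a regular domain `R₁` such that `R₁` is `F`-finite,
or `R₁` is formally smooth over a perfect field, or `R₁` is a subring of `R / 𝔭` and `R / 𝔭` has
characteristic zero. -/
def IsBaseRing (R : Type u) [CommRing R] : Prop :=
  ∀ 𝔭 : Ideal R, 𝔭.IsPrime → IsField (R ⧸ 𝔭) ∨
    ∃ (R₁ : Type u) (_ : CommRing R₁) (_ : IsDomain R₁) (_ : IsRegularRing R₁)
      (σ : R₁ →+* R ⧸ 𝔭), σ.FiniteType ∧
        (IsFFinite R₁ ∨ IsFormallySmoothOverPerfectField R₁ ∨
          (Function.Injective σ ∧ CharZero (R ⧸ 𝔭)))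

/-- The image of the `R`-algebra generated by `T`. -/
def adjoined {R K : Type u} [CommRing R] [Field K] (ρ : R →+* K) (T : Set K) : Subring K :=
  Subring.closure ((ρ.range : Set K) ∪ T)

/-- `B` is a localization of a finitely generated `R`-algebra. -/
def IsEssentiallyOfFiniteType {R K : Type u} [CommRing R] [Field K] (ρ : R →+* K)
    (B : Subring K) : Prop :=
  ∃ T : Set K, T.Finite ∧ adjoined ρ T ≤ B ∧
    ∀ b ∈ B, ∃ a ∈ adjoined ρ T, ∃ s ∈ adjoined ρ T, s ≠ 0 ∧ s⁻¹ ∈ B ∧ b = a * s⁻¹

/-- The valuation rings of `K` which contain `B` and whose centre on `Spec B` is the point `𝔭`. -/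
def Centred {K : Type u} [Field K] (B : Subring K) (𝔭 : Ideal B) : Type u :=
  {V : ValuationSubring K // B ≤ V.toSubring ∧ ∀ b : B, b ∈ 𝔭 ↔ V.valuation (b : K) < 1}

/-- The patch topology (constructible topology) of the Zariski-Riemann space: the sets of the valuation rings which
contain `x`, and their complements, are open. -/
instance patchTopology {K : Type u} [Field K] (B : Subring K) (𝔭 : Ideal B) :
    TopologicalSpace (Centred B 𝔭) :=
  TopologicalSpace.generateFrom {U | ∃ x : K, U = {V | x ∈ V.1} ∨ U = {V | x ∉ V.1}}

/-- `K` is dense in each algebraic extension `L` of it, for each valuation ring `W` of `L` over `V`. (So the completion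
of `K` is algebraically closed.) -/
def IsDenseInAlgebraicExtensions {K : Type u} [Field K] (V : ValuationSubring K) : Prop :=
  ∀ (L : Type u) [Field L] [Algebra K L] [Algebra.IsAlgebraic K L] (W : ValuationSubring L),
    W.comap (algebraMap K L) = V → ∀ θ c : L, c ≠ 0 →
      ∃ y : K, W.valuation (θ - algebraMap K L y) < W.valuation c

/-- Every element of the field `K` is a fraction of elements of `A`. -/
def HasFractionField {K : Type u} [Field K] (A : Subring K) : Prop :=
  ∀ z : K, ∃ a ∈ A, ∃ b ∈ A, b ≠ 0 ∧ z = a * b⁻¹

/-- The field `K` is finitely generated over `R`: it is the fraction field of an `R`-algebra of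
finite type. -/
def IsFinitelyGenerated {R K : Type u} [CommRing R] [Field K] (ρ : R →+* K) : Prop :=
  ∃ T : Set K, T.Finite ∧ HasFractionField (adjoined ρ T)

/-- The valuation ring `V` of `K` is log uniformizable on all models of `K` over `R`: on `Spec B` for all subrings `B` of `V`
which are essentially of finite type over `R` and have the fraction field `K`. -/
def IsUniformizableOnAllModels {R K : Type u} [CommRing R] [Field K] (ρ : R →+* K)
    (V : ValuationSubring K) : Prop :=
  ∀ B : Subring K, IsEssentiallyOfFiniteType ρ B → HasFractionField B → B ≤ V.toSubring →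
    IsLogUniformizable V B

/-- The valuation ring `V` of `K` contains the image of `R`, the field `K` is dense in its algebraic extensions, and all
extensions of `V` to finite extensions of `K` are log uniformizable on all models over `R`. -/
def IsStable {R K : Type u} [CommRing R] [Field K] (ρ : R →+* K) (V : ValuationSubring K) : Prop :=
  (∀ a, ρ a ∈ V) ∧ IsDenseInAlgebraicExtensions V ∧
    ∀ (L : Type u) [Field L] [Algebra K L] [FiniteDimensional K L] (V' : ValuationSubring L),
      V'.comap (algebraMap K L) = V → IsUniformizableOnAllModels ((algebraMap K L).comp ρ) V'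

/-- The subfields of `K` which are obtained from `K₀` by adjoining finitely many elements, one after the other, each of them
transcendental or separable over the field generated before. -/
inductive IsSeparableTower (K₀ : Type u) [Field K₀] {K : Type u} [Field K] [Algebra K₀ K] :
    Subfield K → Prop
  | base : IsSeparableTower K₀ (algebraMap K₀ K).fieldRange
  | transcendental (L : Subfield K) (t : K) : IsSeparableTower K₀ L → Transcendental L t →
      IsSeparableTower K₀ (L ⊔ Subfield.closure {t})
  | separable (L : Subfield K) (t : K) : IsSeparableTower K₀ L → IsSeparable L t →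
      IsSeparableTower K₀ (L ⊔ Subfield.closure {t})

/-- `K₀` is dense in the subfield `L` of `K`, for the valuation ring `W` of `K`. -/
def IsDenseIn (K₀ : Type u) [Field K₀] {K : Type u} [Field K] [Algebra K₀ K]
    (W : ValuationSubring K) (L : Subfield K) : Prop :=
  ∀ θ ∈ L, ∀ c : K, c ≠ 0 → ∃ y : K₀, W.valuation (θ - algebraMap K₀ K y) < W.valuation c

/-- For each nonzero element of `K` there is a nonzero element of `K₀` whose value is not larger. -/
def IsCofinal (K₀ : Type u) [Field K₀] {K : Type u} [Field K] [Algebra K₀ K]
    (W : ValuationSubring K) : Prop :=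
  ∀ z : K, z ≠ 0 → ∃ c : K₀, c ≠ 0 ∧ W.valuation (algebraMap K₀ K c) ≤ W.valuation z

/-- `V` is an isolated point of the space of the valuation rings centred at `𝔭`. -/
def IsIsolated {K : Type u} [Field K] {B : Subring K} {𝔭 : Ideal B} (V : Centred B 𝔭) : Prop :=
  IsOpen ({V} : Set (Centred B 𝔭))

/-- The valuation rings with centre `𝔭` outside a meagre set have the property `P`. -/
def AlmostAll {K : Type u} [Field K] {B : Subring K} {𝔭 : Ideal B} (P : Centred B 𝔭 → Prop) :
    Prop :=
  IsMeagre {V : Centred B 𝔭 | ¬ P V}

lemma good_models {R : Type u} [CommRing R] (hR : HJ R) {K : Type u} [Field K] {ρ : R →+* K}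
    {V : ValuationSubring K} (h : Pool.Agent.R187.CT.Good ρ V) : IsUniformizableOnAllModels ρ V := by
  rintro B ⟨T, hT, hTB, hBT⟩ hBK hBV
  exact h.logUnif hR hT hBV hTB hBT hBK

lemma ess_adjoined {R : Type u} [CommRing R] {K : Type u} [Field K] (ρ : R →+* K) {T : Set K}
    (hT : T.Finite) : IsEssentiallyOfFiniteType ρ (adjoined ρ T) :=
  ⟨T, hT, le_rfl, fun b hb => ⟨b, hb, 1, Subring.one_mem _, one_ne_zero, by
    rw [inv_one]; exact Subring.one_mem _, by rw [inv_one, mul_one]⟩⟩

lemma apx_of_stable {K : Type u} [Field K] {V : ValuationSubring K}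
    (h : IsDenseInAlgebraicExtensions V) : Pool.Agent.V7H82.ZS.Apx V := by
  obtain ⟨W, hW⟩ := Pool.Agent.V7H82.ZT.exists_over V (AlgebraicClosure K)
  exact Pool.Agent.V7H82.ZT.apx_of_dense hW fun θ c hc _ _ => h (AlgebraicClosure K) W hW θ c hc

theorem simple {R : Type u} [CommRing R] (hR : IsBaseRing R) {K₀ : Type u} [Field K₀]
    (ρ : R →+* K₀) (V₀ : ValuationSubring K₀) (hK₀ : IsFinitelyGenerated ρ) (hV₀ : IsStable ρ V₀)
    (K : Type u) [Field K] [Algebra K₀ K] (t : K) (ht : IntermediateField.adjoin K₀ {t} = ⊤)
    (W : ValuationSubring K) (hW : W.comap (algebraMap K₀ K) = V₀) :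
    IsUniformizableOnAllModels ((algebraMap K₀ K).comp ρ) W := by
  have hHJ : HJ R := BR.hj hR
  obtain ⟨h1, h2, h3⟩ := hV₀
  apply good_models hHJ
  refine Pool.Agent.V7H82.ZT.good_simple hHJ hK₀ h1 (apx_of_stable h2) ?_ ht W hW
  intro L _ _ _ V' hV'
  refine Pool.Agent.V7H82.ZT.good_of_fin hHJ hK₀ (V := V₀) ?_ V' hV'
  intro F _ _ _ V'' hV'' T hT hTV hTF
  exact h3 F V'' hV'' _ (ess_adjoined _ hT) hTF hTV

lemma good_fin {R : Type u} [CommRing R] (hR : HJ R) {K₀ : Type u} [Field K₀] {ρ : R →+* K₀}
    {V₀ : ValuationSubring K₀} (hK₀ : IsFinitelyGenerated ρ) (hV₀ : IsStable ρ V₀)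
    {L : Type u} [Field L] [Algebra K₀ L] [Algebra.IsAlgebraic K₀ L] {V' : ValuationSubring L}
    (hV' : V'.comap (algebraMap K₀ L) = V₀) :
    Pool.Agent.R187.CT.Good ((algebraMap K₀ L).comp ρ) V' := by
  refine Pool.Agent.V7H82.ZT.good_of_fin hR hK₀ (V := V₀) ?_ V' hV'
  intro F _ _ _ V'' hV'' T hT hTV hTF
  exact hV₀.2.2 F V'' hV'' _ (ess_adjoined _ hT) hTF hTV

lemma tower {K₀ : Type u} [Field K₀] {K : Type u} [Field K] [Algebra K₀ K] {L : Subfield K}
    (h : IsSeparableTower K₀ L) : Pool.Agent.V7H82.ZT.SepTower K₀ L := by
  induction h with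
  | base => exact Pool.Agent.V7H82.ZT.SepTower.base
  | transcendental L t _ ht ih => exact Pool.Agent.V7H82.ZT.SepTower.trans L t ih ht
  | separable L t _ ht ih => exact Pool.Agent.V7H82.ZT.SepTower.sep L t ih ht

theorem dense_tower {R : Type u} [CommRing R] (hR : IsBaseRing R) {K₀ : Type u} [Field K₀]
    (ρ : R →+* K₀) (V₀ : ValuationSubring K₀) (hK₀ : IsFinitelyGenerated ρ) (hV₀ : IsStable ρ V₀)
    (K : Type u) [Field K] [Algebra K₀ K] (L : Subfield K) (t : K) (hL : IsSeparableTower K₀ L)
    (ht : IsSeparable L t ∨ Transcendental L t) (hK : L ⊔ Subfield.closure {t} = ⊤)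
    (W : ValuationSubring K) (hW : W.comap (algebraMap K₀ K) = V₀) (hd : IsDenseIn K₀ W L)
    (hc : IsCofinal K₀ W) : IsUniformizableOnAllModels ((algebraMap K₀ K).comp ρ) W := by
  have hHJ : HJ R := BR.hj hR
  subst hW
  exact good_models hHJ (Pool.Agent.V7H82.ZT.good_tow hHJ W hV₀.1 hK₀ (good_fin hHJ hK₀ hV₀ rfl)
    (apx_of_stable hV₀.2.1) (tower hL) hd hc ht hK)

theorem dense_stable {R : Type u} [CommRing R] (hR : IsBaseRing R) {K₀ : Type u} [Field K₀]
    [CharZero K₀] (ρ : R →+* K₀) (V₀ : ValuationSubring K₀) (hK₀ : IsFinitelyGenerated ρ)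
    (hV₀ : IsStable ρ V₀) (K : Type u) [Field K] [Algebra K₀ K]
    (hK : IsFinitelyGenerated ((algebraMap K₀ K).comp ρ)) (W : ValuationSubring K)
    (hW : W.comap (algebraMap K₀ K) = V₀) (hd : IsDenseIn K₀ W ⊤) :
    IsStable ((algebraMap K₀ K).comp ρ) W := by
  have hHJ : HJ R := BR.hj hR
  subst hW
  obtain ⟨T, hT, hTK⟩ := hK
  have hgen := Pool.Agent.V7H82.ZT.gen_of_fr hTK
  have hA₀ := apx_of_stable hV₀.2.1
  have hA : Pool.Agent.V7H82.ZS.Apx W := Pool.Agent.V7H82.ZT.apx_top hA₀ hd
  refine ⟨hV₀.1, ?_, ?_⟩
  · intro F _ _ _ W' hW' θ c hc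
    exact hA.dense hW' θ c hc
  · intro F _ _ _ V' hV'
    let _ : Algebra K₀ F := ((algebraMap K F).comp (algebraMap K₀ K)).toAlgebra
    have hst : IsScalarTower K₀ K F := IsScalarTower.of_algebraMap_eq fun _ => rfl
    have hd' := Pool.Agent.V7H82.ZT.dns_alg hA hd hV'
    obtain ⟨S, hS, hSF⟩ := Pool.Agent.V7H82.ZT.gen_fin hT hgen (F := F)
    have hcomap : V'.comap (algebraMap K₀ F) = W.comap (algebraMap K₀ K) := by
      rw [← hV', ValuationSubring.comap_comap]
      rfl
    have h1 := Pool.Agent.V7H82.ZT.good_zero hHJ (ρ := ρ) V' (fun a => by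
      have h2 := hV₀.1 a
      rw [← hcomap] at h2
      exact h2) hK₀ (by rw [hcomap]; exact good_fin hHJ hK₀ hV₀ rfl) (by rw [hcomap]; exact hA₀)
      hS hSF hd'
    exact good_models hHJ h1

theorem generic {R : Type u} [CommRing R] (hR : IsBaseRing R) [Countable R] {K₀ : Type u}
    [Field K₀] (ρ : R →+* K₀) (B : Subring K₀) (hB : IsEssentiallyOfFiniteType ρ B)
    [IsFractionRing B K₀] (𝔭 : Ideal B) [𝔭.IsPrime] :
    Nonempty (Centred B 𝔭) ∧ BaireSpace (Centred B 𝔭) ∧
    AlmostAll (fun V : Centred B 𝔭 => IsIsolated V ∨ IsStable ρ V.1) ∧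
    (IsIntegrallyClosed B → 1 < 𝔭.height → AlmostAll fun V : Centred B 𝔭 => IsStable ρ V.1) := by
  obtain ⟨T, hT, hTB, hBT⟩ := hB
  have hE : Pool.Agent.V7H82.ZR.Ess ρ T B := ⟨hT, hTB, hBT⟩
  have hHJ : HJ R := BR.hj hR
  have hfr : ∀ z : K₀, Fr B z := by
    intro z
    obtain ⟨a, b, hb, rfl⟩ := IsFractionRing.div_surjective (A := B) z
    exact ⟨a, a.2, b, b.2, fun h => nonZeroDivisors.ne_zero hb (Subtype.ext h), div_eq_mul_inv _ _⟩
  have hres := Pool.Agent.V7H82.ZS.residual_apx (𝔭 := 𝔭) hHJ hE hfr
  have hcK : Countable K₀ := by
    have hcB : Countable B := hE.countable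
    have h1 : Function.Surjective (fun q : B × B => (q.1 : K₀) * (q.2 : K₀)⁻¹) := by
      intro z
      obtain ⟨a, ha, b, hb, -, rfl⟩ := hfr z
      exact ⟨(⟨a, ha⟩, ⟨b, hb⟩), rfl⟩
    exact h1.countable
  obtain ⟨M, _, _, _, hMalg, hMc⟩ : ∃ (M : Type u) (_ : Field M) (_ : Algebra K₀ M)
      (_ : IsAlgClosed M) (_ : Algebra.IsAlgebraic K₀ M), Countable M := by
    refine ⟨AlgebraicClosure K₀, inferInstance, inferInstance, inferInstance, inferInstance, ?_⟩
    rw [← Cardinal.mk_le_aleph0_iff]
    refine (Algebra.IsAlgebraic.cardinalMk_le_max K₀ (AlgebraicClosure K₀)).trans ?_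
    simp
  have hher := Pool.Agent.V7H82.ZT.residual_her (𝔭 := 𝔭) (M := M) hHJ hE hfr
  have hcomp : CompactSpace (Centred B 𝔭) := Pool.Agent.V7H82.ZR.cen_compact
  have ht2 : T2Space (Centred B 𝔭) := Pool.Agent.V7H82.ZR.cen_t2
  have hall : ∀ P : Centred B 𝔭 → Prop, {V | P V} ∈ residual (Centred B 𝔭) → AlmostAll P := by
    intro P hP
    unfold AlmostAll IsMeagre
    convert hP using 1
    ext V
    simp
  have hst : ∀ V : Centred B 𝔭, Pool.Agent.V7H82.ZS.Apx V.1 →
      (∀ W' : ValuationSubring M, W'.comap (algebraMap K₀ M) = V.1 →
        ∀ T : Set M, T.Finite → Pool.Agent.V7H82.ZR.rg ((algebraMap K₀ M).comp ρ) T ≤ W'.toSubring →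
            GP W' (Pool.Agent.V7H82.ZR.rg ((algebraMap K₀ M).comp ρ) T)) → IsStable ρ V.1 := by
    intro V h1 h2
    refine ⟨fun a => V.2.1 (hTB (Subring.subset_closure (Or.inl ⟨a, rfl⟩))), ?_, ?_⟩
    · intro L _ _ _ W hW θ c hc
      exact h1.dense hW θ c hc
    · intro L _ _ _ V' hV'
      exact good_models hHJ (Pool.Agent.V7H82.ZT.good_alg h2 V' hV')
  refine ⟨Pool.Agent.V7H82.ZR.cen_nonempty, inferInstance, hall _ ?_, fun hn hht => hall _ ?_⟩
  · refine Filter.mem_of_superset (Filter.inter_mem hres hher) ?_
    rintro V ⟨⟨-, -, -, h4⟩, h5⟩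
    rcases h4 with h4 | h4
    · exact Or.inl ((Pool.Agent.V7H82.ZS.isol_iff V).1 h4)
    · exact Or.inr (hst V h4 h5)
  · refine Filter.mem_of_superset (Filter.inter_mem hres hher) ?_
    rintro V ⟨⟨-, -, -, h4⟩, h5⟩
    rcases h4 with h4 | h4
    · exact absurd h4 (Pool.Agent.V7H82.ZS.no_isol hHJ hE hfr hht V)
    · exact hst V h4 h5

/-- Let `R` be a base ring and `K₀` a field over `R`.
1. If `K₀` is finitely generated over `R` and the valuation ring `V₀` of `K₀` is stable then each valuation ring `W` over `V₀`
of each simple extension `K = K₀(t)` is log uniformizable on all models of `K` over `R`.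
2. Let `R` be countable, `B` a domain essentially of finite type over `R` with the field of fractions `K₀`, and `𝔭` a prime ideal
of `B`. The space of the valuation rings of `K₀` with centre `𝔭` on `Spec B` is a nonempty Baire space for the patch
topology. All `V` outside a meagre subset are isolated points or stable. If `B` is integrally closed and `𝔭` has height at
least two then all `V` outside a meagre subset are stable.
3. Let `V₀` be stable, and let `K` be generated by one element, separable or transcendental, over a subfield `L` which is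
obtained from `K₀` by adjoining finitely many elements, each transcendental or separable over the field generated before.
Then all valuation rings `W` of `K` over `V₀` such that `K₀` is dense in `L`, and the values of `K₀` are cofinal, are log
uniformizable on all models of `K` over `R`.
4. If `K₀` has characteristic zero, `V₀` is stable and `K` is finitely generated, then all valuation rings `W` of `K` over `V₀` such
that `K₀` is dense in `K` are stable. -/
theorem result {R : Type u} [CommRing R] (hR : IsBaseRing R) {K₀ : Type u} [Field K₀]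
    (ρ : R →+* K₀) :
    (∀ V₀ : ValuationSubring K₀, IsFinitelyGenerated ρ → IsStable ρ V₀ →
      ∀ (K : Type u) [Field K] [Algebra K₀ K] (t : K), IntermediateField.adjoin K₀ {t} = ⊤ →
        ∀ W : ValuationSubring K, W.comap (algebraMap K₀ K) = V₀ →
          IsUniformizableOnAllModels ((algebraMap K₀ K).comp ρ) W) ∧
    (Countable R → ∀ B : Subring K₀, IsEssentiallyOfFiniteType ρ B → IsFractionRing B K₀ →
      ∀ (𝔭 : Ideal B) [𝔭.IsPrime], Nonempty (Centred B 𝔭) ∧ BaireSpace (Centred B 𝔭) ∧
        AlmostAll (fun V : Centred B 𝔭 => IsIsolated V ∨ IsStable ρ V.1) ∧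
        (IsIntegrallyClosed B → 1 < 𝔭.height → AlmostAll fun V : Centred B 𝔭 => IsStable ρ V.1)) ∧
    (∀ V₀ : ValuationSubring K₀, IsFinitelyGenerated ρ → IsStable ρ V₀ →
      ∀ (K : Type u) [Field K] [Algebra K₀ K] (L : Subfield K) (t : K), IsSeparableTower K₀ L →
        (IsSeparable L t ∨ Transcendental L t) → L ⊔ Subfield.closure {t} = ⊤ →
          ∀ W : ValuationSubring K, W.comap (algebraMap K₀ K) = V₀ → IsDenseIn K₀ W L →
            IsCofinal K₀ W → IsUniformizableOnAllModels ((algebraMap K₀ K).comp ρ) W) ∧
    (CharZero K₀ → ∀ V₀ : ValuationSubring K₀, IsFinitelyGenerated ρ → IsStable ρ V₀ →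
      ∀ (K : Type u) [Field K] [Algebra K₀ K], IsFinitelyGenerated ((algebraMap K₀ K).comp ρ) →
        ∀ W : ValuationSubring K, W.comap (algebraMap K₀ K) = V₀ → IsDenseIn K₀ W ⊤ →
          IsStable ((algebraMap K₀ K).comp ρ) W) := by
  refine ⟨fun V₀ h1 h2 K _ _ t ht W hW => simple hR ρ V₀ h1 h2 K t ht W hW, ?_, ?_, ?_⟩
  · intro hc B hB hf 𝔭 _
    exact generic hR ρ B hB 𝔭
  · intro V₀ h1 h2 K _ _ L t hL ht hK W hW hd hc
    exact dense_tower hR ρ V₀ h1 h2 K L t hL ht hK W hW hd hc
  · intro _ V₀ h1 h2 K _ _ hK W hW hd
    exact dense_stable hR ρ V₀ h1 h2 K hK W hW hd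

end Pool.Agent.Results.MP_5b7a2c_ag.SimpleExtensionsH82
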